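import Pool.Agent.KS6_71.HX.Main

set_option autoImplicit false

/-! # Every natural number is a Heesch number, in every dimension `n ≥ 2`

The definitions `IsBody`, `Congruent`, `IsPatch`, `TilesSpace`, `corona` and `SurroundsTimes` are in
`Pool.Agent.KS6_71.HX.Defs`. -/

namespace Pool.Agent.Results.MP_127c5d_co.EveryHeeschNumber

open Pool.Agent.KS6_71.HX

/-- For every `n ≥ 2` and every natural number `k` there is a body `A` in Euclidean `n`-space that
is not the prototile of a tiling and whose Heesch number is exactly `k`: some finite patch of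
congruent copies of `A` completely surrounds `A` `k` times, and no patch of congruent copies of `A`
(finite or infinite) completely surrounds `A` `k + 1` times. -/
theorem result : ∀ n : ℕ, 2 ≤ n → ∀ k : ℕ, ∃ A : Set (EuclideanSpace ℝ (Fin n)),
    IsBody A ∧ ¬ TilesSpace A ∧
    (∃ P : Set (Set (EuclideanSpace ℝ (Fin n))), P.Finite ∧ SurroundsTimes P A k) ∧
    ∀ P : Set (Set (EuclideanSpace ℝ (Fin n))), ¬ SurroundsTimes P A (k + 1) := by
  intro n hn k
  obtain ⟨A, h1, h2, h3, h4, -, -⟩ := heesch_exact hn k
  exact ⟨A, h1, h2, h3, h4⟩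

end Pool.Agent.Results.MP_127c5d_co.EveryHeeschNumber
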